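import Pool.Agent.KGC.StmtsP

/-!
# Row N_KEN of the table kgc: the kernel in the variable r
-/

namespace Pool.Agent.KGC.OneD.H83

open MeasureTheory Set Filter Pool.Agent.KG Pool.Agent.KGC
open scoped ContDiff Topology Real

theorem sq_mem {r : ℝ} (hr : r ∈ Ioc (0 : ℝ) 1) : r ^ 2 ∈ Ioc (0 : ℝ) 1 :=
  ⟨pow_pos hr.1 2, pow_le_one₀ hr.1.le hr.2⟩

theorem n_ken (hPar : ParStmt) (hLnk : LnkNStmt) (_hGgb : GgbStmt) : KenStmt := by
  intro l μ B hμ hB r hr r' hr'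
  obtain ⟨hp1, hp2⟩ := hPar l μ B hμ hB
  have key : ∀ s ∈ Ioc (0 : ℝ) 1, ∀ N : ℕ,
      ∑ j ∈ Finset.range N, bf l (B j) s ^ 2 ≤ gg l μ s s := by
    intro s hs N
    have h1 := hp1 (s ^ 2) (sq_mem hs) N
    have h2 : ∑ j ∈ Finset.range N, bf l (B j) s ^ 2 =
        (s * s) ^ l * ∑ j ∈ Finset.range N, (B j).eval (s ^ 2) ^ 2 := by
      rw [Finset.mul_sum]
      refine Finset.sum_congr rfl fun j _ => ?_
      rw [bf, mul_pow, mul_pow]
      ring
    rw [h2, hLnk l μ hμ s hs s hs]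
    exact mul_le_mul_of_nonneg_left h1 (pow_nonneg (mul_nonneg hs.1.le hs.1.le) _)
  have hsum : HasSum (fun j => bf l (B j) r * bf l (B j) r') (gg l μ r r') := by
    have h1 := (hp2 (r ^ 2) (sq_mem hr) (r' ^ 2) (sq_mem hr')).mul_left ((r * r') ^ l)
    rw [← hLnk l μ hμ r hr r' hr'] at h1
    have h2 : (fun j => bf l (B j) r * bf l (B j) r') =
        fun j => (r * r') ^ l * ((B j).eval (r ^ 2) * (B j).eval (r' ^ 2)) := by
      funext j
      rw [bf, bf, mul_pow]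
      ring
    rw [h2]
    exact h1
  have hbd : ∀ N : ℕ, |∑ j ∈ Finset.range N, bf l (B j) r * bf l (B j) r'|
      ≤ Real.sqrt (gg l μ r r * gg l μ r' r') := by
    intro N
    apply Real.abs_le_sqrt
    refine (Finset.sum_mul_sq_le_sq_mul_sq _ _ _).trans ?_
    refine mul_le_mul (key r hr N) (key r' hr' N)
      (Finset.sum_nonneg fun j _ => sq_nonneg _) ?_
    exact le_trans (Finset.sum_nonneg fun j _ => sq_nonneg _) (key r hr N)
  exact ⟨hsum, hbd, le_of_tendsto' hsum.tendsto_sum_nat.abs hbd⟩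

end Pool.Agent.KGC.OneD.H83
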